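import Mathlib

/-!
# Veto interval graphs of every chromatic number

The veto intervals `(i + 1/10, j, k - 1/10)` with integers `i < j < k` contain the shift graph on
triples as a spanning subgraph, so their chromatic number is unbounded. Deleting vertices one at a
time gives every chromatic number.
-/

set_option autoImplicit false

namespace Pool.Agent.Results.MP_2fc053_co.AllChromaticNumbers

/-- `G` is a veto interval graph: its vertices are distinct triples `l a < v a < r a` of reals, and
`a`, `b` are adjacent exactly when the intervals `[l a, r a]`, `[l b, r b]` meet and neither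
contains the mark of the other. -/
def IsVI {V : Type} (G : SimpleGraph V) : Prop :=
  ∃ l v r : V → ℝ, (∀ a, l a < v a ∧ v a < r a) ∧
    (∀ a b, l a = l b → v a = v b → r a = r b → a = b) ∧
    ∀ a b, a ≠ b → (G.Adj a b ↔
      (v a < l b ∧ l b < r a ∧ r a < v b) ∨ (v b < l a ∧ l a < r b ∧ r b < v a))

theorem IsVI.of_embedding {V W : Type} {G : SimpleGraph V} {H : SimpleGraph W} (f : H ↪g G)
    (h : IsVI G) : IsVI H := by
  obtain ⟨l, v, r, h1, h2, h3⟩ := h
  refine ⟨fun x => l (f x), fun x => v (f x), fun x => r (f x), fun a => h1 _, ?_, ?_⟩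
  · intro a b hl hv hr
    exact f.injective (h2 _ _ hl hv hr)
  · intro a b hab
    rw [← f.map_adj_iff]
    exact h3 _ _ (fun h => hab (f.injective h))

/-- increasing triples -/
abbrev Tr (N : ℕ) : Type := {t : Fin N × Fin N × Fin N // t.1 < t.2.1 ∧ t.2.1 < t.2.2}

/-- left ends, times ten -/
def lo {N : ℕ} (t : Tr N) : ℝ := 10 * (t.1.1.val : ℝ) + 1
/-- marks, times ten -/
def mi {N : ℕ} (t : Tr N) : ℝ := 10 * (t.1.2.1.val : ℝ)
/-- right ends, times ten -/
def hi {N : ℕ} (t : Tr N) : ℝ := 10 * (t.1.2.2.val : ℝ) - 1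

theorem lo_mi {N : ℕ} (t : Tr N) : lo t < mi t ∧ mi t < hi t := by
  obtain ⟨⟨i, j, k⟩, h1, h2⟩ := t
  simp only at h1 h2
  have h1' : (i.val : ℝ) + 1 ≤ j.val := by exact_mod_cast h1
  have h2' : (j.val : ℝ) + 1 ≤ k.val := by exact_mod_cast h2
  unfold lo mi hi
  simp only
  constructor <;> linarith

/-- the veto interval graph of all increasing triples -/
def G (N : ℕ) : SimpleGraph (Tr N) where
  Adj a b := (mi a < lo b ∧ lo b < hi a ∧ hi a < mi b) ∨ (mi b < lo a ∧ lo a < hi b ∧ hi b < mi a)
  symm := ⟨fun _ _ h => h.symm⟩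
  loopless := ⟨fun a h => by
    have := (lo_mi a).1
    rcases h with h | h <;> linarith [h.1]⟩

theorem G_VI (N : ℕ) : IsVI (G N) := by
  refine ⟨lo, mi, hi, lo_mi, ?_, fun a b _ => Iff.rfl⟩
  intro a b h1 h2 h3
  unfold lo at h1
  unfold mi at h2
  unfold hi at h3
  have h1' : a.1.1 = b.1.1 := Fin.ext (by exact_mod_cast (by linarith : (a.1.1.val : ℝ) = b.1.1.val))
  have h2' : a.1.2.1 = b.1.2.1 :=
    Fin.ext (by exact_mod_cast (by linarith : (a.1.2.1.val : ℝ) = b.1.2.1.val))
  have h3' : a.1.2.2 = b.1.2.2 :=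
    Fin.ext (by exact_mod_cast (by linarith : (a.1.2.2.val : ℝ) = b.1.2.2.val))
  exact Subtype.ext (Prod.ext h1' (Prod.ext h2' h3'))

theorem G_adj {N : ℕ} {i j k l : Fin N} (h1 : i < j) (h2 : j < k) (h3 : k < l) :
    (G N).Adj ⟨(i, j, k), h1, h2⟩ ⟨(j, k, l), h2, h3⟩ := by
  left
  have h2' : (j.val : ℝ) + 1 ≤ k.val := by exact_mod_cast h2
  simp only [mi, lo, hi]
  refine ⟨by linarith, by linarith, by linarith⟩

/-- the triple graph needs many colours -/
theorem not_colorable (K : ℕ) : ¬ (G (Fintype.card (Set (Set (Fin K))) + 1)).Colorable K := by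
  rintro ⟨C⟩
  set N := Fintype.card (Set (Set (Fin K))) + 1 with hN
  let A : Fin N → Fin N → Set (Fin K) := fun j k =>
    {x | ∃ (i : Fin N) (h : i < j) (h' : j < k), x = C ⟨(i, j, k), h, h'⟩}
  let B : Fin N → Set (Set (Fin K)) := fun k => {X | ∃ j, j < k ∧ X = A j k}
  have key : ∀ k l, k < l → B k ≠ B l := by
    intro k l hkl hB
    have h1 : A k l ∈ B l := ⟨k, hkl, rfl⟩
    rw [← hB] at h1
    obtain ⟨j, hjk, h2⟩ := h1
    have h3 : C ⟨(j, k, l), hjk, hkl⟩ ∈ A k l := ⟨j, hjk, hkl, rfl⟩
    rw [h2] at h3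
    obtain ⟨i, hij, _, h4⟩ := h3
    exact C.valid (G_adj hij hjk hkl) h4.symm
  have hinj : Function.Injective B := by
    intro k l h
    rcases lt_trichotomy k l with h1 | h1 | h1
    · exact absurd h (key k l h1)
    · exact h1
    · exact absurd h.symm (key l k h1)
  have := Fintype.card_le_of_injective B hinj
  rw [Fintype.card_fin] at this
  omega

/-- For every `k ≥ 1` some veto interval graph has chromatic number exactly `k`. In particular
veto interval graphs of chromatic number `5` exist and the chromatic number of veto interval graphs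
is unbounded. -/
theorem result (k : ℕ) (hk : 1 ≤ k) :
    ∃ (n : ℕ) (H : SimpleGraph (Fin n)), IsVI H ∧ H.chromaticNumber = k := by
  classical
  set N := Fintype.card (Set (Set (Fin (k - 1)))) + 1
  -- a minimal set of vertices that is not `(k-1)`-colourable
  have hex : ∃ S : Finset (Tr N), ¬ ((G N).induce (S : Set (Tr N))).Colorable (k - 1) := by
    refine ⟨Finset.univ, fun h => not_colorable (k - 1) ?_⟩
    rw [Finset.coe_univ] at h
    exact h.of_hom (SimpleGraph.induceUnivIso (G N)).symm.toHom
  obtain ⟨S, hS, hmin⟩ := (Finite.wellFounded_of_trans_of_irrefl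
    (α := Finset (Tr N)) (· < ·)).has_min {S | ¬ ((G N).induce (S : Set (Tr N))).Colorable (k - 1)}
      hex
  have hne : S.Nonempty := by
    rw [Finset.nonempty_iff_ne_empty]
    rintro rfl
    apply hS
    have : IsEmpty ((∅ : Finset (Tr N)) : Set (Tr N)) := by simp
    exact SimpleGraph.Colorable.of_isEmpty _
  obtain ⟨x, hx⟩ := hne
  have h1 : ((G N).induce ((S.erase x : Finset (Tr N)) : Set (Tr N))).Colorable (k - 1) := by
    by_contra h
    exact hmin _ h (Finset.erase_ssubset hx)
  obtain ⟨C⟩ := h1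
  have h2 : ((G N).induce (S : Set (Tr N))).Colorable k := by
    have C' : ((G N).induce (S : Set (Tr N))).Coloring (Option (Fin (k - 1))) :=
      SimpleGraph.Coloring.mk
        (fun y => if h : (y : Tr N) = x then none
          else some (C ⟨y.1, by
            rw [Finset.mem_coe, Finset.mem_erase]; exact ⟨h, y.2⟩⟩)) (by
        intro y z hyz
        by_cases hy : (y : Tr N) = x
        · by_cases hz : (z : Tr N) = x
          · have : y = z := Subtype.ext (hy.trans hz.symm)
            exact absurd this hyz.ne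
          · simp [hy, hz]
        · by_cases hz : (z : Tr N) = x
          · simp [hy, hz]
          · simp only [hy, hz, dite_false]
            intro h
            exact C.valid (v := ⟨y.1, by rw [Finset.mem_coe, Finset.mem_erase]; exact ⟨hy, y.2⟩⟩)
              (w := ⟨z.1, by rw [Finset.mem_coe, Finset.mem_erase]; exact ⟨hz, z.2⟩⟩)
              hyz (Option.some.inj h))
    have := C'.colorable
    rw [Fintype.card_option, Fintype.card_fin] at this
    rwa [Nat.sub_add_cancel hk] at this
  let e := Fintype.equivFin (S : Set (Tr N))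
  let H : SimpleGraph (Fin (Fintype.card (S : Set (Tr N)))) :=
    ((G N).induce (S : Set (Tr N))).comap e.symm
  let i : H ≃g (G N).induce (S : Set (Tr N)) := SimpleGraph.Iso.comap e.symm _
  refine ⟨_, H, ?_, ?_⟩
  · exact ((G_VI N).of_embedding (SimpleGraph.Embedding.induce _)).of_embedding i.toEmbedding
  · rw [SimpleGraph.chromaticNumber_congr i]
    obtain ⟨m, rfl⟩ : ∃ m, k = m + 1 := ⟨k - 1, by omega⟩
    have := (SimpleGraph.chromaticNumber_eq_iff_colorable_not_colorable (G := (G N).induce (S : Set (Tr N)))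
      (n := m)).mpr ⟨h2, hS⟩
    simpa using this

end Pool.Agent.Results.MP_2fc053_co.AllChromaticNumbers
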